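import Pool.Agent.H65.CP.Main

namespace Pool.Agent.Results.MP_31efa2_co.MadFive

/-- A correspondence `t`-cover of `G`: every vertex has the colours `Fin t`, and every edge `u v`
carries a matching, not necessarily perfect, between the colours at `u` and the colours at `v`;
`M u v a b` says that the colour `a` at `u` is matched with the colour `b` at `v`. -/
structure Cover {V : Type*} (G : SimpleGraph V) (t : ℕ) where
  /-- the matchings -/
  M : V → V → Fin t → Fin t → Prop
  /-- the matching does not depend on the direction of the edge -/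
  symm : ∀ u v, G.Adj u v → ∀ a b, M u v a b → M v u b a
  /-- every colour has at most one partner -/
  unique : ∀ u v, G.Adj u v → ∀ a b b', M u v a b → M u v a b' → b = b'

variable {V : Type*} {G : SimpleGraph V} {t : ℕ}

/-- `φ` is a colouring with respect to the cover: no edge has matched colours at its ends. -/
def Cover.IsColouring (C : Cover G t) (φ : V → Fin t) : Prop :=
  ∀ u v, G.Adj u v → ¬ C.M u v (φ u) (φ v)

/-- There are `t` pairwise disjoint colourings. -/
def Cover.Packs (C : Cover G t) : Prop :=
  ∃ φ : Fin t → V → Fin t, (∀ i, C.IsColouring (φ i)) ∧ ∀ i j, i ≠ j → ∀ v, φ i v ≠ φ j v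

/-- For every finite graph all of whose (induced) subgraphs have average degree less than `5`,
every correspondence `6`-cover has `6` pairwise disjoint colourings. -/
theorem result {V : Type*} [Fintype V] (G : SimpleGraph V) [DecidableRel G.Adj]
    (hmad : ∀ S : Finset V, S.Nonempty →
      ∑ v ∈ S, (S.filter fun u => G.Adj v u).card < 5 * S.card)
    (C : Cover G 6) : C.Packs := by
  have hM : H65.CP.Cov fun u v a b => G.Adj u v ∧ C.M u v a b :=
    ⟨fun u v a b h => ⟨h.1.symm, C.symm u v h.1 a b h.2⟩,
      fun u v a b b' h h' => C.unique u v h.1 a b b' h.2 h'.2⟩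
  obtain ⟨P, hP⟩ := H65.CP.mad_five (G := G) hM Finset.univ (fun T _ hT => by
    refine lt_of_eq_of_lt (Finset.sum_congr rfl fun v _ => ?_) (hmad T hT)
    congr 1
    ext u
    rw [H65.CP.mem_nb, Finset.mem_filter])
  refine ⟨fun k v => P v k, fun k u v huv h => ?_, fun i j hij v h => hij ((P v).injective h)⟩
  exact hP u (Finset.mem_univ _) v (Finset.mem_univ _) huv k ⟨huv, h⟩

end Pool.Agent.Results.MP_31efa2_co.MadFive
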